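import Pool.Agent.H91.TJ.Stm

set_option autoImplicit false

/-!
# TJ parts AVG, CNT, SIZ: averages over rectangles
-/

namespace Pool.Agent.H39.TJ

open Finset
open Pool.Agent.Y516.OJ (Fam wt Wt EE ind Disj nInt nErr Prot tot Wt_nonneg ind_nonneg)
open Pool.Agent.H91.TJ

theorem ind_of {P : Prop} (h : P) : ind P = 1 := by unfold ind; rw [if_pos h]

theorem ind_not {P : Prop} (h : ¬ P) : ind P = 0 := by unfold ind; rw [if_neg h]

theorem ind_imp {P Q : Prop} (h : P → Q) : ind P ≤ ind Q := by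
  by_cases hp : P
  · rw [ind_of hp, ind_of (h hp)]
  · rw [ind_not hp]; exact ind_nonneg _

theorem mu_nonneg {α : ℝ} (h0 : 0 ≤ α) (h1 : α ≤ 1) {u k : ℕ} (F : Fam u k → Prop) : 0 ≤ mu α F :=
  Finset.sum_nonneg fun X _ => mul_nonneg (Wt_nonneg h0 h1 X) (ind_nonneg _)

theorem mu_mono {α : ℝ} (h0 : 0 ≤ α) (h1 : α ≤ 1) {u k : ℕ} {F G : Fam u k → Prop}
    (h : ∀ X, F X → G X) : mu α F ≤ mu α G :=
  Finset.sum_le_sum fun X _ => mul_le_mul_of_nonneg_left (ind_imp (h X)) (Wt_nonneg h0 h1 X)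

theorem nat_le_pow (N L : ℕ) : (N : ℝ) ≤ L + 2 ^ N / 2 ^ L := by
  rcases le_total N L with h | h
  · have h1 : (N : ℝ) ≤ L := by exact_mod_cast h
    have h2 : (0 : ℝ) ≤ 2 ^ N / 2 ^ L := by positivity
    linarith
  · obtain ⟨j, rfl⟩ := Nat.exists_eq_add_of_le h
    rw [pow_add, mul_div_cancel_left₀ _ (by positivity)]
    have h3 : (j : ℝ) < 2 ^ j := by exact_mod_cast Nat.lt_two_pow_self
    push_cast
    linarith

theorem sum_mu {u k : ℕ} (α : ℝ) (A : Finset (Fin u × Fin k)) (F : Fam u k → Prop) :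
    ∑ c ∈ A, mu α (fun X => F X ∧ X c.1 c.2 = true) =
      ∑ X, Wt α X * (ind (F X) * trues A X) := by
  unfold mu
  rw [Finset.sum_comm]
  apply Finset.sum_congr rfl
  intro X _
  rw [← Finset.mul_sum]
  congr 1
  by_cases hF : F X
  · rw [ind_of hF, one_mul]
    unfold trues
    rw [Finset.card_filter, Nat.cast_sum]
    apply Finset.sum_congr rfl
    intro c _
    by_cases hc : X c.1 c.2 = true
    · rw [ind_of ⟨hF, hc⟩, if_pos hc]; simp
    · rw [ind_not (fun h => hc h.2), if_neg hc]; simp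
  · rw [ind_not hF, zero_mul]
    apply Finset.sum_eq_zero
    intro c _
    exact ind_not (fun h => hF h.1)

theorem t_AVG (hM : S_MOM) : S_AVG := by
  intro u k q L α E A X0 F h0 h1 hd hL hF hmu
  rw [sum_mu]
  have hmom := hM u k L α E A X0 h0 h1 hd hL
  have hstep : ∑ X, Wt α X * (ind (F X) * trues A X) ≤
      ∑ X, ((2 * q + L : ℕ) * (Wt α X * ind (F X)) +
        (1 / 2 ^ (2 * q + L)) * (Wt α X * (ind (Agr E X0 X) * 2 ^ trues A X))) := by
    apply Finset.sum_le_sum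
    intro X _
    have hw := Wt_nonneg h0 h1 X
    have hN := nat_le_pow (trues A X) (2 * q + L)
    by_cases hFX : F X
    · rw [ind_of hFX, ind_of (hF X hFX)]
      calc Wt α X * (1 * (trues A X : ℝ)) ≤
          Wt α X * (((2 * q + L : ℕ) : ℝ) + 2 ^ trues A X / 2 ^ (2 * q + L)) := by
            apply mul_le_mul_of_nonneg_left _ hw
            rw [one_mul]; exact hN
        _ = _ := by ring
    · rw [ind_not hFX]
      have h3 : 0 ≤ ind (Agr E X0 X) := ind_nonneg _
      have h4 : (0 : ℝ) ≤ (1 / 2 ^ (2 * q + L)) * (Wt α X * (ind (Agr E X0 X) * 2 ^ trues A X)) := by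
        positivity
      simp only [zero_mul, mul_zero, zero_add]
      exact h4
  refine le_trans hstep ?_
  rw [Finset.sum_add_distrib, ← Finset.mul_sum, ← Finset.mul_sum]
  change ((2 * q + L : ℕ) : ℝ) * mu α F + _ ≤ _
  have h5 : (1 / 2 ^ (2 * q + L) : ℝ) * ∑ X, Wt α X * (ind (Agr E X0 X) * 2 ^ trues A X) ≤
      mu α F := by
    calc (1 / 2 ^ (2 * q + L) : ℝ) * ∑ X, Wt α X * (ind (Agr E X0 X) * 2 ^ trues A X)
        ≤ (1 / 2 ^ (2 * q + L) : ℝ) * (mu α (Agr E X0) * 2 ^ L) :=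
          mul_le_mul_of_nonneg_left hmom (by positivity)
      _ ≤ (1 / 2 ^ (2 * q + L) : ℝ) * ((4 ^ q * mu α F) * 2 ^ L) := by
          apply mul_le_mul_of_nonneg_left _ (by positivity)
          exact mul_le_mul_of_nonneg_right hmu (by positivity)
      _ = mu α F := by
          rw [pow_add, pow_mul]
          norm_num
          field_simp
  push_cast
  linarith

theorem t_CNT (hA : S_AVG) : S_CNT := by
  intro u k q M E A X0 F hq hM hd hF hpos hmu hc
  have hMpos : (0 : ℝ) < M := by exact_mod_cast (by omega : 0 < M)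
  have hM2 : (2 : ℝ) ≤ M := by exact_mod_cast hM
  have h0 : (0 : ℝ) ≤ 1 / (M : ℝ) := by positivity
  have h1 : 1 / (M : ℝ) ≤ 1 := by rw [div_le_one hMpos]; linarith
  have hav := hA u k q ⌈3 / 2 * (1 / (M : ℝ)) * A.card⌉₊ (1 / (M : ℝ)) E A X0 F h0 h1 hd
    (Nat.le_ceil _) hF hmu
  have hceil : ((⌈3 / 2 * (1 / (M : ℝ)) * A.card⌉₊ : ℕ) : ℝ) ≤ 3 / 2 * (1 / (M : ℝ)) * A.card + 1 :=
    (Nat.ceil_lt_add_one (by positivity)).le
  have hsum : (A.card : ℝ) * (4 * (1 / (M : ℝ)) * mu (1 / (M : ℝ)) F) ≤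
      ∑ c ∈ A, mu (1 / (M : ℝ)) (fun X => F X ∧ X c.1 c.2 = true) := by
    rw [← nsmul_eq_mul]
    exact Finset.card_nsmul_le_sum A _ _ hc
  have h2 : (A.card : ℝ) * (4 * (1 / (M : ℝ))) * mu (1 / (M : ℝ)) F ≤
      (2 * q + (3 / 2 * (1 / (M : ℝ)) * A.card + 1) + 1) * mu (1 / (M : ℝ)) F := by
    calc (A.card : ℝ) * (4 * (1 / (M : ℝ))) * mu (1 / (M : ℝ)) F
        = (A.card : ℝ) * (4 * (1 / (M : ℝ)) * mu (1 / (M : ℝ)) F) := by ring
      _ ≤ _ := hsum
      _ ≤ _ := hav
      _ ≤ _ := mul_le_mul_of_nonneg_right (by linarith) hpos.le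
  have h3 := le_of_mul_le_mul_right h2 hpos
  have hq5 : (5 : ℝ) ≤ q := by exact_mod_cast hq
  have h4 : (A.card : ℝ) * (1 / (M : ℝ)) ≤ q := by nlinarith
  have h5 : (A.card : ℝ) ≤ q * M := by
    rw [mul_one_div, div_le_iff₀ hMpos] at h4
    exact h4
  exact_mod_cast h5

theorem t_SIZ (hA : S_AVG) : S_SIZ := by
  classical
  intro u k q M E X0 F i hM hF hmu
  have hMpos : (0 : ℝ) < M := by exact_mod_cast (by omega : 0 < M)
  have hM2 : (2 : ℝ) ≤ M := by exact_mod_cast hM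
  have h0 : (0 : ℝ) ≤ 1 / (M : ℝ) := by positivity
  have h1 : 1 / (M : ℝ) ≤ 1 := by rw [div_le_one hMpos]; linarith
  have hmF : 0 ≤ mu (1 / (M : ℝ)) F := mu_nonneg h0 h1 F
  set A : Finset (Fin u × Fin k) :=
    (univ.filter fun e : Fin u => (e, i) ∉ E).map ⟨fun e => (e, i), fun a b h => (Prod.mk.inj h).1⟩
    with hAdef
  have hdis : Disjoint E A := by
    rw [Finset.disjoint_left]
    intro c hcE hcA
    rw [hAdef, Finset.mem_map] at hcA
    obtain ⟨e, he, rfl⟩ := hcA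
    exact (Finset.mem_filter.1 he).2 hcE
  have hcard : (A.card : ℝ) ≤ u := by
    rw [hAdef, Finset.card_map]
    have := Finset.card_filter_le (univ : Finset (Fin u)) (fun e => (e, i) ∉ E)
    rw [Finset.card_univ, Fintype.card_fin] at this
    exact_mod_cast this
  have hav := hA u k q ⌈3 / 2 * ((u : ℝ) / M)⌉₊ (1 / (M : ℝ)) E A X0 F h0 h1 hdis
    (by
      refine le_trans ?_ (Nat.le_ceil _)
      rw [show 3 / 2 * (1 / (M : ℝ)) * (A.card : ℝ) = 3 / 2 * ((A.card : ℝ) / M) by ring]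
      gcongr) hF hmu
  have hceil : ((⌈3 / 2 * ((u : ℝ) / M)⌉₊ : ℕ) : ℝ) ≤ 3 / 2 * ((u : ℝ) / M) + 1 :=
    (Nat.ceil_lt_add_one (by positivity)).le
  rw [← Finset.sum_filter_add_sum_filter_not univ (fun e : Fin u => (e, i) ∉ E)]
  have hpart1 : ∑ e ∈ univ.filter (fun e : Fin u => (e, i) ∉ E),
      mu (1 / (M : ℝ)) (fun X => F X ∧ X e i = true) =
      ∑ c ∈ A, mu (1 / (M : ℝ)) (fun X => F X ∧ X c.1 c.2 = true) := by
    rw [hAdef, Finset.sum_map]
    rfl
  have hpart2 : ∑ e ∈ univ.filter (fun e : Fin u => ¬ (e, i) ∉ E),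
      mu (1 / (M : ℝ)) (fun X => F X ∧ X e i = true) ≤
      (trues E X0 : ℝ) * mu (1 / (M : ℝ)) F := by
    calc ∑ e ∈ univ.filter (fun e : Fin u => ¬ (e, i) ∉ E),
        mu (1 / (M : ℝ)) (fun X => F X ∧ X e i = true)
        ≤ ∑ e ∈ univ.filter (fun e : Fin u => ¬ (e, i) ∉ E),
          (if X0 e i = true then mu (1 / (M : ℝ)) F else 0) := by
          apply Finset.sum_le_sum
          intro e he
          rw [Finset.mem_filter, not_not] at he
          split_ifs with hX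
          · exact mu_mono h0 h1 (fun X h => h.1)
          · refine le_of_eq ?_
            unfold mu
            apply Finset.sum_eq_zero
            intro X _
            rw [ind_not, mul_zero]
            rintro ⟨h, hXe⟩
            exact hX ((hF X h (e, i) he.2).symm.trans hXe)
      _ = ((univ.filter (fun e : Fin u => ¬ (e, i) ∉ E)).filter (fun e => X0 e i = true)).card *
          mu (1 / (M : ℝ)) F := by
          rw [← Finset.sum_filter, Finset.sum_const, nsmul_eq_mul]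
      _ ≤ (trues E X0 : ℝ) * mu (1 / (M : ℝ)) F := by
          apply mul_le_mul_of_nonneg_right _ hmF
          have : ((univ.filter (fun e : Fin u => ¬ (e, i) ∉ E)).filter
              (fun e => X0 e i = true)).card ≤ trues E X0 := by
            unfold trues
            apply Finset.card_le_card_of_injOn (fun e => (e, i))
            · intro e he
              simp only [Finset.coe_filter, Finset.mem_filter, Finset.mem_univ, true_and, not_not,
                Set.mem_setOf_eq] at he ⊢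
              exact he
            · intro a _ b _ h
              exact (Prod.mk.inj h).1
          exact_mod_cast this
  rw [hpart1]
  calc (∑ c ∈ A, mu (1 / (M : ℝ)) (fun X => F X ∧ X c.1 c.2 = true)) + _
      ≤ (2 * q + ⌈3 / 2 * ((u : ℝ) / M)⌉₊ + 1) * mu (1 / (M : ℝ)) F +
        (trues E X0 : ℝ) * mu (1 / (M : ℝ)) F := add_le_add hav hpart2
    _ = (2 * q + ⌈3 / 2 * ((u : ℝ) / M)⌉₊ + 1 + trues E X0) * mu (1 / (M : ℝ)) F := by ring
    _ ≤ _ := mul_le_mul_of_nonneg_right (by linarith) hmF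

end Pool.Agent.H39.TJ
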