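import Pool.Agent.H91.TJ.Stm

set_option autoImplicit false

/-!
# TJ part MOM: exponential moments
-/

namespace Pool.Agent.H39.TJ

open Finset
open Pool.Agent.Y516.OJ (Fam wt Wt EE ind Disj nInt nErr Prot tot Wt_nonneg ind_nonneg)
open Pool.Agent.H91.TJ

/-- sums of products over all coordinates -/
theorem sum_prod {u k : ℕ} (g : Fin u × Fin k → Bool → ℝ) :
    ∑ X : Fam u k, ∏ c : Fin u × Fin k, g c (X c.1 c.2) = ∏ c, (g c true + g c false) := by
  have h := (Finset.prod_univ_sum (fun _ : Fin u × Fin k => (univ : Finset Bool)) g).symm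
  rw [Fintype.piFinset_univ] at h
  simp only [Fintype.sum_bool] at h
  rw [← h]
  exact Fintype.sum_equiv (Equiv.curry (Fin u) (Fin k) Bool).symm _ _ (fun X => rfl)

theorem Wt_prod {u k : ℕ} (α : ℝ) (X : Fam u k) :
    Wt α X = ∏ c : Fin u × Fin k, if X c.1 c.2 = true then α else 1 - α := by
  unfold Wt wt
  rw [Fintype.prod_prod_type]

theorem ind_Agr {u k : ℕ} (E : Finset (Fin u × Fin k)) (X0 X : Fam u k) :
    ind (Agr E X0 X) = ∏ c : Fin u × Fin k, if c ∈ E → X c.1 c.2 = X0 c.1 c.2 then (1 : ℝ) else 0 := by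
  unfold ind
  by_cases h : Agr E X0 X
  · rw [if_pos h]
    symm
    apply Finset.prod_eq_one
    intro c _
    rw [if_pos (h c)]
  · rw [if_neg h]
    have h' := h
    unfold Agr at h'
    push Not at h'
    obtain ⟨c, hc, hne⟩ := h'
    symm
    apply Finset.prod_eq_zero (Finset.mem_univ c)
    rw [if_neg]
    intro hh
    exact hne (hh hc)

theorem two_trues {u k : ℕ} (A : Finset (Fin u × Fin k)) (X : Fam u k) :
    (2 : ℝ) ^ trues A X = ∏ c : Fin u × Fin k, if c ∈ A ∧ X c.1 c.2 = true then (2 : ℝ) else 1 := by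
  unfold trues
  rw [Finset.card_filter, ← Finset.prod_pow_eq_pow_sum]
  rw [← Finset.prod_subset (Finset.subset_univ A)]
  · apply Finset.prod_congr rfl
    intro c hc
    by_cases h : X c.1 c.2 = true
    · simp [h, hc]
    · simp [h]
  · intro c _ hc
    simp [hc]

theorem t_MOM : S_MOM := by
  intro u k L α E A X0 h0 h1 hd hL
  have e1 : ∑ X, Wt α X * (ind (Agr E X0 X) * 2 ^ trues A X) =
      ∏ c : Fin u × Fin k,
        ((α * ((if c ∈ E → true = X0 c.1 c.2 then (1 : ℝ) else 0) *
            (if c ∈ A then (2 : ℝ) else 1))) +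
          ((1 - α) * ((if c ∈ E → false = X0 c.1 c.2 then (1 : ℝ) else 0) * 1))) := by
    have h := sum_prod (u := u) (k := k) (fun c b => (if b = true then α else 1 - α) *
      ((if c ∈ E → b = X0 c.1 c.2 then (1 : ℝ) else 0) *
        (if c ∈ A ∧ b = true then (2 : ℝ) else 1)))
    simp only [if_true, and_true, Bool.false_eq_true, if_false, and_false] at h
    rw [← h]
    apply Finset.sum_congr rfl
    intro X _
    rw [Wt_prod, ind_Agr, two_trues, ← Finset.prod_mul_distrib, ← Finset.prod_mul_distrib]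
  have e2 : mu α (Agr E X0) =
      ∏ c : Fin u × Fin k,
        ((α * (if c ∈ E → true = X0 c.1 c.2 then (1 : ℝ) else 0)) +
          ((1 - α) * (if c ∈ E → false = X0 c.1 c.2 then (1 : ℝ) else 0))) := by
    have h := sum_prod (u := u) (k := k) (fun c b => (if b = true then α else 1 - α) *
      (if c ∈ E → b = X0 c.1 c.2 then (1 : ℝ) else 0))
    simp only [if_true, Bool.false_eq_true, if_false] at h
    rw [← h]
    unfold mu
    apply Finset.sum_congr rfl
    intro X _
    rw [Wt_prod, ind_Agr, ← Finset.prod_mul_distrib]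
  have e3 : ∑ X, Wt α X * (ind (Agr E X0 X) * 2 ^ trues A X) =
      mu α (Agr E X0) * (1 + α) ^ A.card := by
    rw [e1, e2]
    have hc : (1 + α) ^ A.card = ∏ c : Fin u × Fin k, if c ∈ A then (1 + α) else 1 := by
      rw [Finset.prod_ite_mem, Finset.univ_inter, Finset.prod_const]
    rw [hc, ← Finset.prod_mul_distrib]
    apply Finset.prod_congr rfl
    intro c _
    by_cases hA : c ∈ A
    · have hE : c ∉ E := fun hE => Finset.disjoint_left.1 hd hE hA
      simp only [hE, hA, false_imp_iff, if_true]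
      ring
    · simp only [hA, if_false]
      ring
  rw [e3]
  have hmu : 0 ≤ mu α (Agr E X0) :=
    Finset.sum_nonneg fun X _ => mul_nonneg (Wt_nonneg h0 h1 X) (ind_nonneg _)
  apply mul_le_mul_of_nonneg_left _ hmu
  have hexp : (1 + α) ^ A.card ≤ Real.exp (α * A.card) := by
    have h2 : 1 + α ≤ Real.exp α := by
      have := Real.add_one_le_exp α
      linarith
    calc (1 + α) ^ A.card ≤ (Real.exp α) ^ A.card := pow_le_pow_left₀ (by linarith) h2 _
      _ = Real.exp (α * A.card) := by rw [← Real.exp_nat_mul, mul_comm]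
  refine le_trans hexp ?_
  have hlog : (2 : ℝ) ^ L = Real.exp (Real.log 2 * L) := by
    rw [← Real.rpow_natCast, Real.rpow_def_of_pos (by norm_num)]
  rw [hlog]
  apply Real.exp_le_exp.2
  have hl2 := Real.log_two_gt_d9
  have hLn : (0 : ℝ) ≤ L := Nat.cast_nonneg L
  nlinarith

end Pool.Agent.H39.TJ
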